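import Pool.Agent.Helper18.SU.Goals2

/-!
Packet DEEP of MP_f2ad72_co: a deep vertex finishes the proof.
-/

set_option autoImplicit false

namespace Pool.Agent.Helper54.SU

open Pool.Agent.Helper18.SU

lemma dep_walk {W : Type} {D : W → W → Prop} {r : W} {par : W → W} {dep : W → ℕ} {sgn : W → Bool}
    (hR : Rooted r par dep) (hP : Rep D r par sgn) {x y : W}
    (p : (SimpleGraph.fromRel D).Walk x y) (hp : p.IsPath) (hx : x = r ∨ par x ∉ p.support) :
    dep y = dep x + p.length := by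
  induction p with
  | nil => simp
  | @cons x z y h p' ih =>
    rw [SimpleGraph.Walk.cons_isPath_iff] at hp
    have hz : z ∈ p'.support := p'.start_mem_support
    have hno : ¬ (x ≠ r ∧ par x = z) := by
      rintro ⟨h1, h2⟩
      rcases hx with hx | hx
      · exact h1 hx
      · apply hx
        rw [h2, SimpleGraph.Walk.support_cons]
        exact List.mem_cons_of_mem _ hz
    have hzp : z ≠ r ∧ par z = x := by
      rw [SimpleGraph.fromRel_adj] at h
      rcases h.2 with h1 | h1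
      · rcases (hP x z).1 h1 with h2 | h2
        · exact ⟨h2.1, h2.2.1⟩
        · exact absurd ⟨h2.1, h2.2.1⟩ hno
      · rcases (hP z x).1 h1 with h2 | h2
        · exact absurd ⟨h2.1, h2.2.1⟩ hno
        · exact ⟨h2.1, h2.2.1⟩
    have h1 := ih hp.1 (Or.inr (by rw [hzp.2]; exact hp.2))
    have h2 := hR.2.2 z hzp.1
    rw [hzp.2] at h2
    rw [h1, SimpleGraph.Walk.length_cons]
    omega

lemma erf_mono (n : ℕ) (s : ℕ) (h : s ≤ n) : erf n s ≤ erf n n := by
  unfold erf
  have h1 : Real.sqrt (s : ℝ) ≤ Real.sqrt (n : ℝ) := Real.sqrt_le_sqrt (by exact_mod_cast h)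
  have h2 : 0 ≤ Real.log (n : ℝ) := Real.log_natCast_nonneg n
  have h3 : 8 * Real.sqrt (s : ℝ) * (Real.log n + 3) ≤ 8 * Real.sqrt (n : ℝ) * (Real.log n + 3) := by
    apply mul_le_mul_of_nonneg_right _ (by linarith)
    linarith
  linarith

/-- **Packet DEEP.** -/
theorem DEEP (h1 : FPA_stmt) (_h2 : ROOT_stmt) : DEEP_stmt := by
  intro n hn A hA D hD r par dep sgn hR hP w hw
  obtain ⟨p, hp, -⟩ := hD.2.existsUnique_path r w
  have hlen : dep w = p.length := by
    have := dep_walk hR hP p hp (Or.inl rfl)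
    rw [hR.1, zero_add] at this
    exact this
  have hN : 2 * (n : ℝ) - (p.length + 1) + 1 + erf n (n - (p.length + 1)) ≤
      ((2 * n - 2 : ℕ) : ℝ) := by
    have h3 := erf_mono n (n - (p.length + 1)) (Nat.sub_le _ _)
    have h4 : ((2 * n - 2 : ℕ) : ℝ) = 2 * (n : ℝ) - 2 := by
      rw [Nat.cast_sub (by omega)]
      push_cast
      ring
    rw [h4]
    rw [hlen] at hw
    linarith
  obtain ⟨f, hf1, hf2⟩ := h1 n ⟨D⟩ hD.1 hD.2 r w p hp (2 * n - 2) hN ⟨A⟩ hA.1 hA.2
  exact ⟨f, hf1, hf2⟩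

end Pool.Agent.Helper54.SU
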