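import Pool.Agent.Helper18.SU.Goals3

/-!
Packet E23 of MP_f2ad72_co: the two-sided case.
-/

set_option autoImplicit false

namespace Pool.Agent.Helper54.SU

open Pool.Agent.Helper18.SU

lemma fromRel_op {W : Type} (D : W → W → Prop) :
    SimpleGraph.fromRel (Op D) = SimpleGraph.fromRel D := by
  ext a b
  rw [SimpleGraph.fromRel_adj, SimpleGraph.fromRel_adj]
  unfold Op
  tauto

lemma OT_op {W : Type} {D : W → W → Prop} (h : OT D) : OT (Op D) := by
  refine ⟨fun a b h1 h2 => h.1 _ _ h1 h2, ?_⟩
  rw [fromRel_op]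
  exact h.2

lemma Cont_op {W V : Type} {A : V → V → Prop} {D : W → W → Prop} (h : Cont (Op A) (Op D)) :
    Cont A D := by
  obtain ⟨f, hf, h1⟩ := h
  exact ⟨f, hf, fun a b hab => h1 b a hab⟩

lemma mem_mid {V : Type} [Fintype V] {A : V → V → Prop} {a b : ℕ} {x : V} :
    x ∈ mid A a b ↔ a ≤ (nb A true Finset.univ x).card ∧ b ≤ (nb A false Finset.univ x).card := by
  unfold mid
  rw [Finset.mem_filter]
  simp

lemma mem_low {V : Type} [Fintype V] {A : V → V → Prop} {d : Bool} {c : ℕ} {x : V} :
    x ∈ low A d c ↔ (nb A d Finset.univ x).card < c := by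
  unfold low
  rw [Finset.mem_filter]
  simp

lemma brn_not {W : Type} [Fintype W] (par : W → W) (sgn : W → Bool) (S : Finset W) (c : W)
    (d : Bool) : brn par (fun w => !sgn w) S c d = brn par sgn S c (!d) := by
  classical
  ext w
  unfold brn
  rw [Finset.mem_filter, Finset.mem_filter]
  apply and_congr_right
  intro _
  constructor
  · rintro ⟨c', h1, h2, h3, h4⟩
    exact ⟨c', h1, h2, by rw [← h3, Bool.not_not], h4⟩
  · rintro ⟨c', h1, h2, h3, h4⟩
    exact ⟨c', h1, h2, by simp only [h3, Bool.not_not], h4⟩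

lemma brn_sub {W : Type} [Fintype W] (par : W → W) (sgn : W → Bool) (S : Finset W) (c : W)
    (d : Bool) : brn par sgn S c d ⊆ S := by
  classical
  intro w hw
  unfold brn at hw
  exact (Finset.mem_filter.1 hw).1

/-- **Packet E23.** -/
theorem E23 (h1 : E2H3_stmt) (h2 : E2M3_stmt) (h3 : E2P_stmt) (h4 : COUNT_stmt) (h5 : BRG_stmt)
    (h6 : REP_stmt) (h7 : REV_stmt) (h8 : SIZ_stmt) (h9 : DEG_stmt) (h10 : DSJ3_stmt)
    (h11 : BRN_stmt) : E23_stmt := by
  intro W V _ _ _ _ A hA hV D hD v u s s1 L R hs hs1 hL ha hb hmid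
  by_contra hcon
  have hC0 : 1 ≤ C0 := by unfold C0; norm_num
  -- the two rootings
  obtain ⟨par, dep, sgn, hR, hP⟩ := h5 W D hD v
  obtain ⟨par', dep', sgn', hR', hP', hsame⟩ : ∃ (par' : W → W) (dep' : W → ℕ) (sgn' : W → Bool),
      Rooted u par' dep' ∧ Rep (Op D) u par' sgn' ∧
        (u = v → par' = par ∧ sgn' = fun w => !sgn w) := by
    by_cases huv : u = v
    · subst huv
      exact ⟨par, dep, fun w => !sgn w, hR, (h6 W V A D u par dep sgn hD.1 hR hP).2.1,
        fun _ => ⟨rfl, rfl⟩⟩
    · obtain ⟨par', dep', sgn', h12, h13⟩ := h5 W (Op D) (OT_op hD) u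
      exact ⟨par', dep', sgn', h12, h13, fun h => absurd h huv⟩
  obtain ⟨r1, -, ⟨r3, r3', -⟩, r4, r5, r6⟩ := h6 W V A D v par dep sgn hD.1 hR hP
  obtain ⟨q1, -, ⟨q3, q3', -⟩, q4, q5, q6⟩ :=
    h6 W V (Op A) (Op D) u par' dep' sgn' (OT_op hD).1 hR' hP'
  have ha2 : 2 ≤ (OL D v).card := by omega
  have hb2 : 2 ≤ (OL (Op D) u).card := by omega
  obtain ⟨hBrm, hchu⟩ := r4 u ha2 hb2
  obtain ⟨hBrm', hchv⟩ := q4 v hb2 ha2
  change Brm u v par' sgn' (OL (Op D) u) (OL D v) at hBrm'
  have hF1 : ¬ Full (V := V) A v par sgn := fun h => hcon (r1 h)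
  have hF2 : ¬ Full (V := V) (Op A) u par' sgn' := fun h => hcon (Cont_op (q1 h))
  obtain ⟨v1, -, v3, v4, v5, -⟩ := h7 W V A v par dep sgn ∅ 0 0
  have hA' : Tour (Op A) := v1 hA
  -- the paths are directed
  have hdir : ∀ k : ℕ, par^[k] u ≠ v → sgn (par^[k] u) = false := by
    intro k hk
    by_contra h12
    apply hF1
    refine h2 W V A hA hV v u par dep hR sgn (OL D v) (OL (Op D) u) hBrm ⟨k, hk, by
      cases hh : sgn (par^[k] u) with
      | false => exact absurd hh h12
      | true => rfl⟩ s L R hs (by omega) (by omega) hmid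
  have hdir' : ∀ k : ℕ, par'^[k] v ≠ u → sgn' (par'^[k] v) = false := by
    intro k hk
    by_contra h12
    apply hF2
    refine h2 W V (Op A) hA' hV u v par' dep' hR' sgn' (OL (Op D) u) (OL D v) hBrm' ⟨k, hk, by
      cases hh : sgn' (par'^[k] v) with
      | false => exact absurd hh h12
      | true => rfl⟩ s L R (by omega) (by omega) (by omega) (by rw [v5]; exact hmid)
  -- the sizes
  set S : Finset W := Finset.univ \ (OL D v ∪ OL (Op D) u) with hS
  have hdisj : Disjoint (OL D v) (OL (Op D) u) := by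
    rw [Finset.disjoint_left]
    intro c hc hc'
    have h12 := (hBrm.1 c hc).2.2
    have h13 := (hBrm.2.1 c hc').2.2
    rw [h12] at h13
    exact absurd h13 (by decide)
  have hScard : S.card = s := by
    rw [hS, Finset.card_sdiff_of_subset (Finset.subset_univ _), Finset.card_univ,
      Finset.card_union_of_disjoint hdisj]
    omega
  have hvS : v ∈ S := by
    rw [hS, Finset.mem_sdiff, Finset.mem_union]
    refine ⟨Finset.mem_univ _, ?_⟩
    rintro (h12 | h12)
    · exact (hBrm.1 v h12).1 rfl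
    · exact (hBrm.2.1 v h12).1 rfl
  have hs0 : 1 ≤ s := by
    rw [← hScard]
    exact Finset.card_pos.2 ⟨v, hvS⟩
  set so := (brn par sgn S v true).card with hso
  set so' := (brn par' sgn' S u true).card with hso'
  have hsum : so + so' ≤ s := by
    rw [← hScard]
    by_cases huv : u = v
    · obtain ⟨e1, e2⟩ := hsame huv
      have h12 := (h11 W v par dep hR sgn S v).2.2.2
      have h13 : so' = (brn par sgn S v false).card := by
        rw [hso', e1, e2, huv, brn_not]
        rfl
      rw [h13]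
      exact h12
    · have h12 := h10 W D hD.1 v u huv par dep sgn hR hP hdir par' dep' sgn' hR' hP' S
      rw [hso, hso', ← Finset.card_union_of_disjoint h12]
      exact Finset.card_le_card (Finset.union_subset (brn_sub _ _ _ _ _) (brn_sub _ _ _ _ _))
  have hmax : ∀ t : ℕ, t ≤ s → ∃ G : ℕ, 3 * t + C0 ≤ G ∧ L ≤ G ∧ G ≤ 3 * s1 + C0 ∧
      (G = 3 * t + C0 ∨ G = L) := by
    intro t ht
    by_cases h12 : 3 * t + C0 ≤ L
    · exact ⟨L, h12, le_rfl, by omega, Or.inr rfl⟩
    · exact ⟨3 * t + C0, le_rfl, by omega, by omega, Or.inl rfl⟩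
  obtain ⟨Go, g1, g3, g5, c1⟩ := hmax so (by omega)
  obtain ⟨Gi, g2, g4, g6, c2⟩ := hmax so' (by omega)
  have g7 : 2 * (Go + Gi) + R ≤ 2 * s + (4 * s1 + 2 * L + 4 * C0 + R) := by
    rcases c1 with c1 | c1 <;> rcases c2 with c2 | c2 <;> omega
  have hM : (mid A ((OL D v).card + Go) ((OL (Op D) u).card + Gi)).card ≤ R := by
    refine le_trans (Finset.card_le_card ?_) hmid
    intro x hx
    rw [mem_mid] at hx ⊢
    omega
  set M := mid A ((OL D v).card + Go) ((OL (Op D) u).card + Gi) with hMdef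
  set X := low A true ((OL D v).card + Go) with hX
  set B := low A false ((OL (Op D) u).card + Gi) with hB
  have hMop : mid (Op A) ((OL (Op D) u).card + Gi) ((OL D v).card + Go) = M := v5 _ _
  have hBop : low (Op A) true ((OL (Op D) u).card + Gi) = B := v4 _ _
  have hS' : Finset.univ \ (OL (Op D) u ∪ OL D v) = S := by rw [Finset.union_comm]
  have res1 := h1 W V A hA hV v u par dep hR sgn (OL D v) (OL (Op D) u) hBrm hdir s Go Gi R
    (4 * s1 + 2 * L + 4 * C0 + R) (3 * s1 + C0) hs g1 (by
      intro huv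
      obtain ⟨e1, e2⟩ := hsame huv
      have h13 : so' = (brn par sgn S v false).card := by
        rw [hso', e1, e2, huv, brn_not]
        rfl
      rw [← hS, ← h13]
      exact g2) (by omega) (by omega) g5 g6 g7 (by omega) (by omega) hM
  have res2 := h1 W V (Op A) hA' hV u v par' dep' hR' sgn' (OL (Op D) u) (OL D v) hBrm' hdir'
    s Gi Go R (4 * s1 + 2 * L + 4 * C0 + R) (3 * s1 + C0) (by omega) (by rw [hS']; exact g2) (by
      intro hvu
      obtain ⟨e1, e2⟩ := hsame hvu.symm
      have h13 : so = (brn par' sgn' S u false).card := by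
        rw [hso, e1, e2, hvu, brn_not]
        rfl
      rw [hS', ← h13]
      exact g1) (by omega) (by omega) g6 g5 (by omega) (by omega) (by omega)
      (by rw [hMop]; exact hM)
  rw [← hMdef, ← hX] at res1
  rw [hMop, hBop] at res2
  rcases res1 with h12 | ⟨m1, x1⟩
  · exact hF1 h12
  rcases res2 with h12 | ⟨m2, x2⟩
  · exact hF2 h12
  -- the number of vertices in X and B
  set dv := (chd v par sgn v true).card with hdv
  set du := (chd u par' sgn' u true).card with hdu
  have hdva : (OL D v).card ≤ dv := Finset.card_le_card r3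
  have hdub : (OL (Op D) u).card ≤ du := Finset.card_le_card q3
  obtain ⟨d1, -, -, -, d5, -⟩ := h9 V A hA
  have hXc : X.card ≤ 2 * (dv - 1) + 1 := d5 true X (dv - 1) (fun y hy => by
    have := x1 y hy
    omega)
  have hBc : B.card ≤ 2 * (du - 1) + 1 := d5 false B (du - 1) (fun y hy => by
    have h12 := x2 y hy
    rw [v3] at h12
    simp only [Bool.not_true] at h12
    omega)
  obtain ⟨z1, z2, z3⟩ := h8 V A hA
  have hsiz : Fintype.card V ≤ X.card + B.card + M.card := z2 _ _
  -- COUNT
  have hcnt := (h4 W v u par dep hR sgn (OL D v) (OL (Op D) u) hBrm r3').1 hdir hchu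
  have hsu : u = v ∨ sgn u = false := by
    by_cases huv : u = v
    · exact Or.inl huv
    · exact Or.inr (hdir 0 huv)
  have hdu' : (chd v par sgn u false).card = du := by
    rw [r6 u hsu, hdu, q5]
  rw [hdu'] at hcnt
  have hMc : dep u + 2 ≤ M.card := by omega
  -- the degrees of the vertices of M
  have hXlow : 2 * (OL D v).card + 2 * s ≤ X.card + 2 * Gi + R + 1 := by
    have h12 := z1 false ((OL (Op D) u).card + Gi) (by omega)
    rw [← hB] at h12
    omega
  have hBlow : 2 * (OL (Op D) u).card + 2 * s ≤ B.card + 2 * Go + R + 1 := by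
    have h12 := z1 true ((OL D v).card + Go) (by omega)
    rw [← hX] at h12
    omega
  have hMX : Disjoint M X := by
    rw [Finset.disjoint_left]
    intro x hx hx'
    rw [hMdef, mem_mid] at hx
    rw [hX, mem_low] at hx'
    omega
  have hMB : Disjoint M B := by
    rw [Finset.disjoint_left]
    intro x hx hx'
    rw [hMdef, mem_mid] at hx
    rw [hB, mem_low] at hx'
    omega
  have hXB : Disjoint X B := by
    rw [Finset.disjoint_left]
    intro x hx hx'
    rw [hX, mem_low] at hx
    rw [hB, mem_low] at hx'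
    have := z3 x
    omega
  apply hF1
  refine h3 W V A hA v u par dep hR sgn (OL D v) (OL (Op D) u) hBrm s hs hdir M X B hMX hMB hXB
    hMc ?_ ?_
  · intro x hx
    have h12 := d1 X x (fun h => (Finset.disjoint_left.1 hMX) hx h)
    have h13 := (m1 x hx).2
    omega
  · intro x hx
    have h12 := d1 B x (fun h => (Finset.disjoint_left.1 hMB) hx h)
    have h13 := (m2 x hx).2
    rw [v3] at h13
    simp only [Bool.not_false] at h13
    omega

end Pool.Agent.Helper54.SU
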